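import Mathlib

/-!
# Colourful triangulations of a convex polygon and twists: definitions
-/

set_option autoImplicit false

namespace Pool.Agent.P8H53.TW

/-- A pair `(a, b)` of labels is a diagonal of the convex `N`-gon with vertices `1, 2, …, N`
(in this order on the boundary): `1 ≤ a < b ≤ N` and `a`, `b` are not neighbours. -/
def IsDiagonal (N : ℕ) (d : ℕ × ℕ) : Prop :=
  1 ≤ d.1 ∧ d.1 + 2 ≤ d.2 ∧ d.2 ≤ N ∧ ¬ (d.1 = 1 ∧ d.2 = N)

/-- Two diagonals cross. -/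
def Cross (d e : ℕ × ℕ) : Prop :=
  (d.1 < e.1 ∧ e.1 < d.2 ∧ d.2 < e.2) ∨ (e.1 < d.1 ∧ d.1 < e.2 ∧ e.2 < d.2)

/-- `T` is (the set of diagonals of) a triangulation of the `N`-gon: a maximal set of pairwise
non-crossing diagonals. -/
structure IsTriangulation (N : ℕ) (T : Finset (ℕ × ℕ)) : Prop where
  diagonal : ∀ d ∈ T, IsDiagonal N d
  noncrossing : ∀ d ∈ T, ∀ e ∈ T, ¬ Cross d e
  maximal : ∀ d, IsDiagonal N d → (∀ e ∈ T, ¬ Cross d e) → d ∈ T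

/-- For `a < b`: the vertices `a`, `b` are joined by a side of the polygon or by a diagonal of
`T`. -/
def Joined (N : ℕ) (T : Finset (ℕ × ℕ)) (a b : ℕ) : Prop :=
  (1 ≤ a ∧ b = a + 1 ∧ b ≤ N) ∨ (a = 1 ∧ b = N) ∨ (a, b) ∈ T

/-- `a < b < c` are the vertices of a triangle of the triangulation. -/
def IsTriangle (N : ℕ) (T : Finset (ℕ × ℕ)) (a b c : ℕ) : Prop :=
  a < b ∧ b < c ∧ Joined N T a b ∧ Joined N T b c ∧ Joined N T a c

/-- The vertex `i` has the colour `i mod 3` (`1` red, `2` blue, `0` green); in every triangle of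
the triangulation the three vertices have three different colours. -/
def Colorful (N : ℕ) (T : Finset (ℕ × ℕ)) : Prop :=
  ∀ a b c, IsTriangle N T a b c → a % 3 ≠ b % 3 ∧ b % 3 ≠ c % 3 ∧ a % 3 ≠ c % 3

/-- `T'` arises from `T` by a twist: there is a hexagon `h₁ h₂ h₃ h₄ h₅ h₆`, all of whose sides are
sides of the polygon or diagonals of `T`, such that `T` contains the three sides of one of the
triangles `h₁ h₃ h₅`, `h₂ h₄ h₆`, and in `T'` they are replaced by the sides of the other one. -/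
def Twist (N : ℕ) (T T' : Finset (ℕ × ℕ)) : Prop :=
  ∃ h₁ h₂ h₃ h₄ h₅ h₆ : ℕ, h₁ < h₂ ∧ h₂ < h₃ ∧ h₃ < h₄ ∧ h₄ < h₅ ∧ h₅ < h₆ ∧
    Joined N T h₁ h₂ ∧ Joined N T h₂ h₃ ∧ Joined N T h₃ h₄ ∧ Joined N T h₄ h₅ ∧
    Joined N T h₅ h₆ ∧ Joined N T h₁ h₆ ∧
    ((((h₁, h₃) ∈ T ∧ (h₃, h₅) ∈ T ∧ (h₁, h₅) ∈ T) ∧
        T' = (T \ {(h₁, h₃), (h₃, h₅), (h₁, h₅)}) ∪ {(h₂, h₄), (h₄, h₆), (h₂, h₆)}) ∨
     (((h₂, h₄) ∈ T ∧ (h₄, h₆) ∈ T ∧ (h₂, h₆) ∈ T) ∧
        T' = (T \ {(h₂, h₄), (h₄, h₆), (h₂, h₆)}) ∪ {(h₁, h₃), (h₃, h₅), (h₁, h₅)}))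

/-- The graph `H_N`: the vertices are the colourful triangulations of the `N`-gon; two of them are
adjacent when one is obtained from the other by a single twist. -/
def H (N : ℕ) : SimpleGraph {T : Finset (ℕ × ℕ) // IsTriangulation N T ∧ Colorful N T} :=
  SimpleGraph.fromRel fun T T' => Twist N T.1 T'.1

end Pool.Agent.P8H53.TW
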