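import Mathlib
import Pool.Agent.P8H53.TW.Defs

/-!
# Enumeration of the colourful triangulations
-/

set_option autoImplicit false

namespace Pool.Agent.P8H53.TW

/-- the diagonal `(a, b)`, unless it is a side -/
def sd (a b : ℕ) : List (ℕ × ℕ) := if a + 2 ≤ b then [(a, b)] else []

/-- the colours are different -/
def rb (a b c : ℕ) : Bool := a % 3 != b % 3 && b % 3 != c % 3 && a % 3 != c % 3

/-- the colourful triangulations of the polygon with vertices `i, …, j` -/
def gen : ℕ → ℕ → ℕ → List (List (ℕ × ℕ))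
  | 0, _, _ => [[]]
  | (f + 1), i, j => if j ≤ i + 1 then [[]] else
      (List.range (j - i - 1)).flatMap fun t =>
        if rb i (i + 1 + t) j then
          (gen f i (i + 1 + t)).flatMap fun A => (gen f (i + 1 + t) j).map fun B =>
            sd i (i + 1 + t) ++ (sd (i + 1 + t) j ++ (A ++ B))
        else []

variable {N : ℕ} {T : Finset (ℕ × ℕ)}

theorem joined_mem {a b : ℕ} (h : Joined N T a b) (hab : a + 2 ≤ b) (h1 : ¬ (a = 1 ∧ b = N)) :
    (a, b) ∈ T := by
  rcases h with h | h | h
  · omega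
  · exact absurd h h1
  · exact h

theorem joined_range (hT : IsTriangulation N T) {a b : ℕ} (h : Joined N T a b) : 1 ≤ a ∧ b ≤ N := by
  rcases h with h | h | h
  · omega
  · omega
  · have := hT.diagonal _ h
    exact ⟨this.1, this.2.2.1⟩

/-- nothing crosses a joined pair -/
theorem joined_cross (hT : IsTriangulation N T) {i j : ℕ} (h : Joined N T i j) {a b : ℕ}
    (hab : (a, b) ∈ T) : ¬ Cross (i, j) (a, b) := by
  have h0 := hT.diagonal _ hab
  obtain ⟨d1, d2, d3, d4⟩ := h0
  simp only at d1 d2 d3 d4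
  rcases h with h | h | h
  · rintro (⟨c1, c2, c3⟩ | ⟨c1, c2, c3⟩) <;> simp only at c1 c2 c3 <;> omega
  · rintro (⟨c1, c2, c3⟩ | ⟨c1, c2, c3⟩) <;> simp only at c1 c2 c3 <;> omega
  · exact hT.noncrossing _ h _ hab

/-- every side bounds a triangle -/
theorem exists_triangle (hT : IsTriangulation N T) {i j : ℕ} (h : Joined N T i j)
    (hij : i + 2 ≤ j) : ∃ k, i < k ∧ k < j ∧ Joined N T i k ∧ Joined N T k j := by
  classical
  obtain ⟨r1, r2⟩ := joined_range hT h
  have hex : ∃ k, i < k ∧ k < j ∧ Joined N T i k :=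
    ⟨i + 1, by omega, by omega, Or.inl ⟨r1, rfl, by omega⟩⟩
  -- the largest such vertex
  let S := (Finset.range j).filter fun k => i < k ∧ Joined N T i k
  have hS : S.Nonempty := by
    obtain ⟨k, h1, h2, h3⟩ := hex
    exact ⟨k, Finset.mem_filter.2 ⟨Finset.mem_range.2 h2, h1, h3⟩⟩
  obtain ⟨k, hk, hmax⟩ := S.exists_maximal hS
  rw [Finset.mem_filter, Finset.mem_range] at hk
  obtain ⟨k1, k2, k3⟩ := hk
  have hmax' : ∀ b, b < j → Joined N T i b → b ≤ k := by
    intro b hb hib
    by_contra hcon
    push Not at hcon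
    have := hmax (Finset.mem_filter.2 ⟨Finset.mem_range.2 hb, by omega, hib⟩) hcon.le
    exact absurd this (not_le.2 hcon)
  refine ⟨k, k2, k1, k3, ?_⟩
  by_cases hkj : j = k + 1
  · exact Or.inl ⟨by omega, hkj, r2⟩
  · right; right
    apply hT.maximal
    · refine ⟨?_, ?_, r2, ?_⟩ <;> simp only <;> omega
    · rintro ⟨a, b⟩ hab hc
      have h0 := hT.diagonal _ hab
      obtain ⟨d1, d2, d3, d4⟩ := h0
      simp only at d1 d2 d3 d4
      have e1 := joined_cross hT h hab
      have e2 := joined_cross hT k3 hab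
      unfold Cross at e1 e2 hc
      simp only at e1 e2 hc
      rcases hc with ⟨c1, c2, c3⟩ | ⟨c1, c2, c3⟩
      · apply e1; left; omega
      · rcases lt_trichotomy a i with ha | ha | ha
        · apply e1; right; omega
        · subst ha
          have := hmax' b c3 (Or.inr (Or.inr hab))
          omega
        · apply e2; left; omega

theorem gen_complete (hT : IsTriangulation N T) (hC : Colorful N T) :
    ∀ (f i j : ℕ), j ≤ i + 1 + f → i < j → Joined N T i j →
      ∃ A ∈ gen f i j, ∀ a b, (a, b) ∈ A ↔ ((a, b) ∈ T ∧ i ≤ a ∧ b ≤ j ∧ ¬ (a = i ∧ b = j)) := by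
  intro f
  induction f with
  | zero =>
    intro i j h1 h2 h3
    refine ⟨[], by simp [gen], fun a b => ⟨fun h => by simp at h, fun ⟨h4, h5, h6, h7⟩ => ?_⟩⟩
    have := (hT.diagonal _ h4).2.1
    simp only at this
    omega
  | succ f ih =>
    intro i j h1 h2 h3
    by_cases hij : j ≤ i + 1
    · refine ⟨[], by simp [gen, hij], fun a b => ⟨fun h => by simp at h,
        fun ⟨h4, h5, h6, h7⟩ => ?_⟩⟩
      have := (hT.diagonal _ h4).2.1
      simp only at this
      omega
    · obtain ⟨k, k1, k2, k3, k4⟩ := exists_triangle hT h3 (by omega)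
      obtain ⟨A, hA, hA'⟩ := ih i k (by omega) k1 k3
      obtain ⟨B, hB, hB'⟩ := ih k j (by omega) k2 k4
      have hcol := hC i k j ⟨k1, k2, k3, k4, h3⟩
      obtain ⟨t, rfl⟩ : ∃ t, k = i + 1 + t := ⟨k - i - 1, by omega⟩
      refine ⟨sd i (i + 1 + t) ++ (sd (i + 1 + t) j ++ (A ++ B)), ?_, ?_⟩
      · rw [gen, if_neg hij, List.mem_flatMap]
        refine ⟨t, List.mem_range.2 (by omega), ?_⟩
        have hrb : rb i (i + 1 + t) j = true := by
          unfold rb
          simp only [Bool.and_eq_true, bne_iff_ne]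
          exact ⟨⟨hcol.1, hcol.2.1⟩, hcol.2.2⟩
        rw [if_pos hrb, List.mem_flatMap]
        exact ⟨A, hA, List.mem_map.2 ⟨B, hB, rfl⟩⟩
      · intro a b
        have hsd : ∀ x y : ℕ, (a, b) ∈ sd x y ↔ (x + 2 ≤ y ∧ a = x ∧ b = y) := by
          intro x y
          unfold sd
          split_ifs with h
          · simp [h]
          · simp [h]
        simp only [List.mem_append, hsd, hA', hB']
        obtain ⟨r1, r2⟩ := joined_range hT h3
        constructor
        · rintro (⟨s1, rfl, rfl⟩ | ⟨s1, rfl, rfl⟩ | ⟨s1, s2, s3, s4⟩ | ⟨s1, s2, s3, s4⟩)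
          · exact ⟨joined_mem k3 s1 (by omega), le_rfl, k2.le, by omega⟩
          · exact ⟨joined_mem k4 s1 (by omega), k1.le, le_rfl, by omega⟩
          · exact ⟨s1, s2, by omega, by omega⟩
          · exact ⟨s1, by omega, s3, by omega⟩
        · rintro ⟨s1, s2, s3, s4⟩
          have d2 := (hT.diagonal _ s1).2.1
          simp only at d2
          have e1 := joined_cross hT k3 s1
          have e2 := joined_cross hT k4 s1
          unfold Cross at e1 e2
          simp only at e1 e2
          by_cases hb : b ≤ i + 1 + t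
          · by_cases hh : a = i ∧ b = i + 1 + t
            · left; obtain ⟨rfl, rfl⟩ := hh; exact ⟨d2, rfl, rfl⟩
            · right; right; left; exact ⟨s1, s2, hb, hh⟩
          · by_cases ha : i + 1 + t ≤ a
            · by_cases hh : a = i + 1 + t ∧ b = j
              · right; left; exact ⟨by omega, hh.1, hh.2⟩
              · right; right; right; exact ⟨s1, ha, s3, hh⟩
            · exfalso
              by_cases hai : a = i
              · apply e2; right; omega
              · apply e1; left; omega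

theorem mem_gen (hT : IsTriangulation N T) (hC : Colorful N T) (hN : 3 ≤ N) :
    ∃ A ∈ gen (N - 2) 1 N, T = A.toFinset := by
  obtain ⟨A, hA, hA'⟩ := gen_complete hT hC (N - 2) 1 N (by omega) (by omega)
    (Or.inr (Or.inl ⟨rfl, rfl⟩))
  refine ⟨A, hA, ?_⟩
  ext ⟨a, b⟩
  rw [List.mem_toFinset, hA']
  constructor
  · intro h
    obtain ⟨d1, d2, d3, d4⟩ := hT.diagonal _ h
    exact ⟨h, d1, d3, d4⟩
  · intro h; exact h.1

end Pool.Agent.P8H53.TW
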