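import Mathlib
import Pool.Agent.P8H53.TW.Enum

/-!
# The graph `H_14` is connected
-/

set_option autoImplicit false

namespace Pool.Agent.P8H53.TW

/-- the colourful triangulations of the 14-gon -/
def G14 : List (List (ℕ × ℕ)) := gen 12 1 14

/-- for every colourful triangulation: its rank in a breadth first search, the number of its
parent, and the hexagon of the twist -/
def D14 : List (ℕ × ℕ × ℕ × ℕ × ℕ × ℕ × ℕ × ℕ) :=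
  [(0, 0, 0, 0, 0, 0, 0, 0),
   (3, 0, 9, 10, 11, 12, 13, 14),
   (55, 6, 6, 7, 8, 12, 13, 14),
   (52, 7, 6, 7, 11, 12, 13, 14),
   (2, 0, 6, 7, 8, 9, 10, 14),
   (10, 1, 6, 7, 8, 9, 13, 14),
   (27, 5, 8, 9, 10, 11, 12, 13),
   (25, 8, 6, 7, 8, 9, 10, 11),
   (9, 4, 6, 10, 11, 12, 13, 14),
   (43, 27, 3, 4, 5, 9, 10, 14),
   (74, 9, 9, 10, 11, 12, 13, 14),
   (32, 28, 3, 4, 8, 9, 10, 14),
   (60, 11, 9, 10, 11, 12, 13, 14),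
   (21, 17, 4, 5, 6, 7, 8, 12),
   (47, 13, 7, 8, 9, 10, 11, 12),
   (80, 37, 3, 4, 5, 12, 13, 14),
   (79, 20, 4, 5, 9, 10, 11, 12),
   (8, 4, 4, 6, 8, 10, 12, 14),
   (78, 14, 4, 5, 6, 7, 11, 12),
   (76, 44, 3, 4, 11, 12, 13, 14),
   (48, 21, 4, 5, 6, 7, 8, 9),
   (23, 17, 4, 8, 9, 10, 11, 12),
   (1, 0, 3, 4, 5, 6, 7, 14),
   (6, 22, 9, 10, 11, 12, 13, 14),
   (68, 42, 3, 7, 8, 12, 13, 14),
   (67, 47, 3, 7, 11, 12, 13, 14),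
   (7, 4, 3, 4, 5, 6, 10, 14),
   (19, 26, 5, 6, 7, 8, 9, 10),
   (14, 29, 3, 4, 5, 6, 7, 8),
   (5, 22, 3, 7, 8, 9, 10, 14),
   (26, 5, 3, 4, 5, 6, 13, 14),
   (54, 30, 8, 9, 10, 11, 12, 13),
   (50, 33, 6, 7, 8, 9, 10, 11),
   (24, 8, 3, 4, 5, 6, 13, 14),
   (53, 30, 5, 6, 7, 8, 9, 13),
   (46, 13, 3, 4, 5, 12, 13, 14),
   (77, 35, 7, 8, 9, 10, 11, 12),
   (51, 33, 5, 6, 10, 11, 12, 13),
   (81, 37, 5, 6, 7, 8, 9, 10),
   (38, 41, 3, 4, 5, 6, 7, 8),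
   (22, 17, 3, 4, 8, 12, 13, 14),
   (17, 23, 3, 7, 8, 9, 13, 14),
   (39, 41, 8, 9, 10, 11, 12, 13),
   (66, 47, 3, 4, 5, 6, 7, 11),
   (45, 48, 3, 4, 5, 6, 10, 11),
   (75, 49, 3, 4, 5, 9, 10, 11),
   (49, 21, 3, 4, 11, 12, 13, 14),
   (37, 51, 3, 7, 8, 9, 10, 11),
   (20, 26, 3, 10, 11, 12, 13, 14),
   (44, 27, 3, 10, 11, 12, 13, 14),
   (34, 28, 3, 10, 11, 12, 13, 14),
   (16, 29, 3, 10, 11, 12, 13, 14),
   (123, 56, 6, 7, 8, 9, 10, 14),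
   (128, 52, 9, 10, 11, 12, 13, 14),
   (137, 55, 7, 8, 9, 10, 11, 12),
   (133, 59, 6, 7, 11, 12, 13, 14),
   (110, 116, 1, 6, 8, 10, 12, 14),
   (132, 53, 6, 7, 8, 9, 13, 14),
   (136, 57, 8, 9, 10, 11, 12, 13),
   (129, 60, 6, 7, 8, 9, 10, 11),
   (124, 56, 6, 10, 11, 12, 13, 14),
   (126, 65, 6, 7, 8, 9, 10, 14),
   (130, 61, 9, 10, 11, 12, 13, 14),
   (139, 64, 7, 8, 9, 10, 11, 12),
   (135, 68, 6, 7, 11, 12, 13, 14),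
   (122, 56, 1, 2, 3, 4, 5, 6),
   (134, 62, 6, 7, 8, 9, 13, 14),
   (138, 66, 8, 9, 10, 11, 12, 13),
   (131, 69, 6, 7, 8, 9, 10, 11),
   (127, 65, 6, 10, 11, 12, 13, 14),
   (11, 78, 1, 2, 3, 4, 5, 9),
   (29, 70, 9, 10, 11, 12, 13, 14),
   (28, 70, 4, 5, 6, 7, 8, 9),
   (57, 72, 9, 10, 11, 12, 13, 14),
   (84, 76, 2, 3, 4, 5, 6, 7),
   (104, 74, 9, 10, 11, 12, 13, 14),
   (58, 84, 1, 2, 6, 7, 8, 9),
   (85, 76, 9, 10, 11, 12, 13, 14),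
   (4, 22, 1, 3, 5, 7, 9, 14),
   (13, 78, 9, 10, 11, 12, 13, 14),
   (56, 72, 1, 2, 3, 4, 8, 9),
   (83, 80, 9, 10, 11, 12, 13, 14),
   (82, 80, 3, 4, 5, 6, 7, 8),
   (103, 82, 9, 10, 11, 12, 13, 14),
   (30, 86, 1, 2, 3, 4, 5, 6),
   (59, 84, 9, 10, 11, 12, 13, 14),
   (12, 78, 1, 5, 6, 7, 8, 9),
   (31, 86, 9, 10, 11, 12, 13, 14),
   (86, 92, 4, 5, 6, 7, 8, 12),
   (105, 88, 7, 8, 9, 10, 11, 12),
   (40, 112, 1, 2, 3, 4, 5, 12),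
   (70, 90, 5, 6, 7, 8, 9, 10),
   (61, 114, 1, 2, 3, 4, 8, 12),
   (98, 94, 6, 7, 8, 9, 10, 11),
   (69, 90, 4, 5, 6, 10, 11, 12),
   (99, 91, 4, 5, 9, 10, 11, 12),
   (88, 92, 4, 8, 9, 10, 11, 12),
   (35, 115, 1, 2, 3, 7, 8, 12),
   (64, 97, 7, 8, 9, 10, 11, 12),
   (63, 97, 2, 3, 4, 5, 6, 7),
   (91, 99, 7, 8, 9, 10, 11, 12),
   (106, 105, 2, 3, 4, 5, 6, 10),
   (119, 101, 5, 6, 7, 8, 9, 10),
   (121, 107, 2, 3, 4, 8, 9, 10),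
   (115, 108, 2, 3, 7, 8, 9, 10),
   (87, 92, 2, 4, 6, 8, 10, 12),
   (118, 131, 1, 2, 9, 10, 11, 12),
   (109, 132, 1, 2, 9, 10, 11, 12),
   (93, 133, 1, 2, 9, 10, 11, 12),
   (107, 105, 2, 6, 7, 8, 9, 10),
   (96, 24, 1, 3, 5, 7, 12, 14),
   (95, 25, 1, 3, 5, 7, 12, 14),
   (18, 26, 1, 3, 5, 10, 12, 14),
   (42, 112, 5, 6, 7, 8, 9, 10),
   (33, 28, 1, 3, 8, 10, 12, 14),
   (15, 29, 1, 3, 8, 10, 12, 14),
   (90, 99, 1, 2, 6, 7, 8, 12),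
   (111, 116, 1, 2, 3, 4, 5, 6),
   (113, 122, 3, 4, 5, 6, 7, 11),
   (97, 94, 1, 2, 3, 4, 11, 12),
   (117, 95, 1, 2, 3, 4, 11, 12),
   (108, 96, 1, 2, 3, 4, 11, 12),
   (92, 98, 1, 2, 3, 7, 11, 12),
   (116, 119, 3, 4, 5, 6, 10, 11),
   (125, 123, 5, 6, 7, 8, 9, 10),
   (120, 121, 3, 4, 8, 9, 10, 11),
   (114, 122, 3, 7, 8, 9, 10, 11),
   (100, 128, 6, 7, 8, 9, 10, 11),
   (71, 130, 1, 2, 3, 4, 5, 6),
   (72, 130, 6, 7, 8, 9, 10, 11),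
   (41, 112, 1, 5, 6, 10, 11, 12),
   (101, 135, 1, 2, 3, 4, 5, 9),
   (89, 136, 1, 2, 3, 4, 8, 9),
   (65, 137, 1, 2, 3, 7, 8, 9),
   (94, 133, 2, 3, 4, 5, 6, 7),
   (73, 113, 1, 5, 9, 10, 11, 12),
   (62, 114, 1, 8, 9, 10, 11, 12),
   (36, 115, 1, 8, 9, 10, 11, 12),
   (112, 116, 1, 8, 9, 10, 11, 12),
   (102, 135, 1, 5, 6, 7, 8, 9)]

/-- joined, as a Boolean -/
def jn (A : List (ℕ × ℕ)) (a b : ℕ) : Bool := (b == a + 1) || (a == 1 && b == 14) || A.contains (a, b)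

/-- diagonal, as a Boolean -/
def dg (a b : ℕ) : Bool := Nat.ble 1 a && Nat.ble (a + 2) b && Nat.ble b 14 && !(a == 1 && b == 14)

/-- crossing, as a Boolean -/
def cx (a b c d : ℕ) : Bool :=
  (Nat.blt a c && Nat.blt c b && Nat.blt b d) || (Nat.blt c a && Nat.blt a d && Nat.blt d b)

/-- validity, as a Boolean -/
def vd (A : List (ℕ × ℕ)) : Bool :=
  A.all (fun d => dg d.1 d.2 && A.all fun e => !cx d.1 d.2 e.1 e.2) &&
  ((List.range 15).all fun a => (List.range 15).all fun b =>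
    !dg a b || A.any (fun e => cx a b e.1 e.2) || A.contains (a, b)) &&
  ((List.range 15).all fun a => (List.range 15).all fun b =>
    !(Nat.ble 1 a && Nat.blt a b && jn A a b) || (List.range 15).all fun c =>
      !(Nat.blt b c && jn A b c && jn A a c) || rb a b c)

theorem all_valid : G14.all vd = true := by decide +kernel

/-- the twist, as a Boolean -/
def tw (A B : List (ℕ × ℕ)) (h : ℕ × ℕ × ℕ × ℕ × ℕ × ℕ) : Bool :=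
  let (a, b, c, d, e, f) := h
  Nat.ble 1 a && Nat.blt a b && Nat.blt b c && Nat.blt c d && Nat.blt d e && Nat.blt e f && Nat.ble f 14 &&
  jn A a b && jn A b c && jn A c d && jn A d e && jn A e f && jn A a f &&
  ((A.contains (a, c) && A.contains (c, e) && A.contains (a, e) &&
    B.all (fun x => (A.contains x && !([(a, c), (c, e), (a, e)].contains x)) ||
      [(b, d), (d, f), (b, f)].contains x) &&
    A.all (fun x => B.contains x || [(a, c), (c, e), (a, e)].contains x) &&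
    B.contains (b, d) && B.contains (d, f) && B.contains (b, f)) ||
   (A.contains (b, d) && A.contains (d, f) && A.contains (b, f) &&
    B.all (fun x => (A.contains x && !([(b, d), (d, f), (b, f)].contains x)) ||
      [(a, c), (c, e), (a, e)].contains x) &&
    A.all (fun x => B.contains x || [(b, d), (d, f), (b, f)].contains x) &&
    B.contains (a, c) && B.contains (c, e) && B.contains (a, e)))

theorem G14_length : G14.length = 140 := by decide +kernel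

theorem tree : ∀ i < 140, (D14.getD i (0, 0, 0, 0, 0, 0, 0, 0)).1 = 0 ∧ i = 0 ∨
    (D14.getD i (0, 0, 0, 0, 0, 0, 0, 0)).2.1 < 140 ∧
    (D14.getD (D14.getD i (0, 0, 0, 0, 0, 0, 0, 0)).2.1 (0, 0, 0, 0, 0, 0, 0, 0)).1 <
      (D14.getD i (0, 0, 0, 0, 0, 0, 0, 0)).1 ∧
    tw (G14.getD (D14.getD i (0, 0, 0, 0, 0, 0, 0, 0)).2.1 []) (G14.getD i [])
      (D14.getD i (0, 0, 0, 0, 0, 0, 0, 0)).2.2 = true := by
  decide +kernel

end Pool.Agent.P8H53.TW
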