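import Mathlib
import Pool.Agent.P8H53.TW.Fourteen

/-!
# The graph `H_14` is connected
-/

set_option autoImplicit false

namespace Pool.Agent.P8H53.TW

theorem dg_iff (a b : ℕ) : dg a b = true ↔ IsDiagonal 14 (a, b) := by
  unfold dg IsDiagonal
  simp only [Bool.and_eq_true, Nat.ble_eq, Bool.not_eq_true', Bool.and_eq_false_imp, beq_iff_eq,
    beq_eq_false_iff_ne, ne_eq, not_and]
  constructor
  · rintro ⟨⟨⟨h1, h2⟩, h3⟩, h4⟩; exact ⟨h1, h2, h3, h4⟩
  · rintro ⟨h1, h2, h3, h4⟩; exact ⟨⟨⟨h1, h2⟩, h3⟩, h4⟩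

theorem cx_iff (a b c d : ℕ) : cx a b c d = true ↔ Cross (a, b) (c, d) := by
  unfold cx Cross
  simp only [Bool.or_eq_true, Bool.and_eq_true, Nat.blt_eq]
  constructor
  · rintro (⟨⟨h1, h2⟩, h3⟩ | ⟨⟨h1, h2⟩, h3⟩)
    · left; exact ⟨h1, h2, h3⟩
    · right; exact ⟨h1, h2, h3⟩
  · rintro (⟨h1, h2, h3⟩ | ⟨h1, h2, h3⟩)
    · left; exact ⟨⟨h1, h2⟩, h3⟩
    · right; exact ⟨⟨h1, h2⟩, h3⟩

theorem jn_iff (A : List (ℕ × ℕ)) {a b : ℕ} (ha : 1 ≤ a) (hb : b ≤ 14) :
    jn A a b = true ↔ Joined 14 A.toFinset a b := by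
  unfold jn Joined
  simp only [Bool.or_eq_true, Bool.and_eq_true, beq_iff_eq, List.contains_iff_mem,
    List.mem_toFinset]
  constructor
  · rintro ((h | h) | h)
    · left; exact ⟨ha, h, hb⟩
    · right; left; exact h
    · right; right; exact h
  · rintro (h | h | h)
    · left; left; exact h.2.1
    · left; right; exact h
    · right; exact h

theorem rb_iff (a b c : ℕ) : rb a b c = true ↔ a % 3 ≠ b % 3 ∧ b % 3 ≠ c % 3 ∧ a % 3 ≠ c % 3 := by
  unfold rb
  simp only [Bool.and_eq_true, bne_iff_ne]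
  exact and_assoc

theorem vd_spec {A : List (ℕ × ℕ)} (h : vd A = true) :
    IsTriangulation 14 A.toFinset ∧ Colorful 14 A.toFinset := by
  unfold vd at h
  simp only [Bool.and_eq_true, List.all_eq_true, List.mem_range, Bool.or_eq_true,
    Bool.not_eq_true', List.any_eq_true, List.contains_iff_mem, Nat.ble_eq, Nat.blt_eq] at h
  obtain ⟨⟨h1, h2⟩, h3⟩ := h
  have htri : IsTriangulation 14 A.toFinset := by
    refine ⟨?_, ?_, ?_⟩
    · rintro ⟨a, b⟩ hd
      rw [List.mem_toFinset] at hd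
      exact (dg_iff a b).1 (h1 _ hd).1
    · rintro ⟨a, b⟩ hd ⟨c, d⟩ he hc
      rw [List.mem_toFinset] at hd he
      have := (h1 _ hd).2 _ he
      rw [(cx_iff a b c d).2 hc] at this
      exact absurd this (by decide)
    · rintro ⟨a, b⟩ hd he
      have ha : a < 15 := by have := hd.2.2.1; have := hd.2.1; simp only at *; omega
      have hb : b < 15 := by have := hd.2.2.1; simp only at *; omega
      rcases h2 a ha b hb with (h | ⟨⟨c, d⟩, h, h'⟩) | h
      · rw [(dg_iff a b).2 hd] at h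
        exact absurd h (by decide)
      · exact absurd ((cx_iff a b c d).1 h') (he _ (List.mem_toFinset.2 h))
      · exact List.mem_toFinset.2 h
  refine ⟨htri, ?_⟩
  rintro a b c ⟨hab, hbc, j1, j2, j3⟩
  obtain ⟨r1, _⟩ := joined_range htri j1
  obtain ⟨_, r2⟩ := joined_range htri j2
  have e1 := (jn_iff A r1 (by omega : b ≤ 14)).2 j1
  have e2 := (jn_iff A (by omega : 1 ≤ b) r2).2 j2
  have e3 := (jn_iff A r1 r2).2 j3
  rcases h3 a (by omega) b (by omega) with h | h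
  · rw [e1] at h
    have : (Nat.ble 1 a && Nat.blt a b && true) = true := by
      simp only [Bool.and_eq_true, Nat.ble_eq, Nat.blt_eq]
      exact ⟨⟨r1, hab⟩, trivial⟩
    rw [this] at h
    exact absurd h (by decide)
  · rcases h c (by omega) with h | h
    · rw [e2, e3] at h
      have : (Nat.blt b c && true && true) = true := by
        simp only [Bool.and_eq_true, Nat.blt_eq]
        exact ⟨⟨hbc, trivial⟩, trivial⟩
      rw [this] at h
      exact absurd h (by decide)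
    · exact (rb_iff a b c).1 h

theorem tw_spec {A B : List (ℕ × ℕ)} {a b c d e f : ℕ} (h : tw A B (a, b, c, d, e, f) = true) :
    Twist 14 A.toFinset B.toFinset := by
  unfold tw at h
  simp only [Bool.and_eq_true, Bool.or_eq_true, Nat.ble_eq, Nat.blt_eq, List.all_eq_true,
    List.contains_iff_mem, Bool.not_eq_true'] at h
  obtain ⟨⟨⟨⟨⟨⟨⟨⟨⟨⟨⟨⟨⟨h1, h2⟩, h3⟩, h4⟩, h5⟩, h6⟩, h7⟩, j1⟩, j2⟩, j3⟩, j4⟩, j5⟩, j6⟩, hh⟩ := h
  refine ⟨a, b, c, d, e, f, h2, h3, h4, h5, h6,
    (jn_iff A (by omega) (by omega)).1 j1, (jn_iff A (by omega) (by omega)).1 j2,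
    (jn_iff A (by omega) (by omega)).1 j3, (jn_iff A (by omega) (by omega)).1 j4,
    (jn_iff A (by omega) (by omega)).1 j5, (jn_iff A (by omega) (by omega)).1 j6, ?_⟩
  have key : ∀ x1 x2 x3 y1 y2 y3 : ℕ × ℕ,
      (∀ x ∈ B, (x ∈ A ∧ [x1, x2, x3].contains x = false) ∨ x ∈ [y1, y2, y3]) →
      (∀ x ∈ A, x ∈ B ∨ x ∈ [x1, x2, x3]) → y1 ∈ B → y2 ∈ B → y3 ∈ B →
      B.toFinset = (A.toFinset \ {x1, x2, x3}) ∪ {y1, y2, y3} := by
    intro x1 x2 x3 y1 y2 y3 g1 g2 g3 g4 g5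
    ext x
    simp only [Finset.mem_union, Finset.mem_sdiff, List.mem_toFinset, Finset.mem_insert,
      Finset.mem_singleton]
    have hm : [x1, x2, x3].contains x = false ↔ ¬ (x = x1 ∨ x = x2 ∨ x = x3) := by
      rw [← Bool.not_eq_true, List.contains_iff_mem]
      simp
    constructor
    · intro hx
      rcases g1 x hx with h | h
      · left; exact ⟨h.1, hm.1 h.2⟩
      · right; simpa using h
    · rintro (⟨hx, hx'⟩ | rfl | rfl | rfl)
      · rcases g2 x hx with h | h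
        · exact h
        · exact absurd (by simpa using h) hx'
      · exact g3
      · exact g4
      · exact g5
  rcases hh with hh | hh
  · left
    obtain ⟨⟨⟨⟨⟨⟨⟨q1, q2⟩, q3⟩, q4⟩, q5⟩, q6⟩, q7⟩, q8⟩ := hh
    exact ⟨⟨List.mem_toFinset.2 q1, List.mem_toFinset.2 q2, List.mem_toFinset.2 q3⟩,
      key _ _ _ _ _ _ q4 q5 q6 q7 q8⟩
  · right
    obtain ⟨⟨⟨⟨⟨⟨⟨q1, q2⟩, q3⟩, q4⟩, q5⟩, q6⟩, q7⟩, q8⟩ := hh
    exact ⟨⟨List.mem_toFinset.2 q1, List.mem_toFinset.2 q2, List.mem_toFinset.2 q3⟩,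
      key _ _ _ _ _ _ q4 q5 q6 q7 q8⟩

/-- the colourful triangulation number `i` -/
def vtx (i : ℕ) (hi : i < 140) : {T : Finset (ℕ × ℕ) // IsTriangulation 14 T ∧ Colorful 14 T} :=
  ⟨(G14.getD i []).toFinset, vd_spec (by
    have h := all_valid
    rw [List.all_eq_true] at h
    apply h
    rw [List.getD_eq_getElem _ _ (by rw [G14_length]; exact hi)]
    exact List.getElem_mem _)⟩

theorem reach (n : ℕ) : ∀ i (hi : i < 140), (D14.getD i (0, 0, 0, 0, 0, 0, 0, 0)).1 = n →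
    (H 14).Reachable (vtx 0 (by norm_num)) (vtx i hi) := by
  induction n using Nat.strong_induction_on with
  | _ n ih =>
    intro i hi hn
    rcases tree i hi with ⟨_, h0⟩ | ⟨h1, h2, h3⟩
    · subst h0; exact SimpleGraph.Reachable.refl _
    · rw [hn] at h2
      have h4 := ih _ h2 _ h1 rfl
      refine h4.trans ?_
      have h5 := tw_spec h3
      by_cases heq : vtx (D14.getD i (0, 0, 0, 0, 0, 0, 0, 0)).2.1 h1 = vtx i hi
      · rw [heq]
      · apply SimpleGraph.Adj.reachable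
        unfold H
        rw [SimpleGraph.fromRel_adj]
        exact ⟨heq, Or.inl h5⟩

theorem connected : (H 14).Connected := by
  rw [SimpleGraph.connected_iff_exists_forall_reachable]
  refine ⟨vtx 0 (by norm_num), ?_⟩
  rintro ⟨T, hT, hC⟩
  obtain ⟨A, hA, rfl⟩ := mem_gen hT hC (by norm_num)
  change A ∈ G14 at hA
  obtain ⟨i, hi, hiA⟩ := List.getElem_of_mem hA
  have hi' : i < 140 := by rw [← G14_length]; exact hi
  have h := reach _ i hi' rfl
  have e : vtx i hi' = ⟨A.toFinset, hT, hC⟩ := by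
    apply Subtype.ext
    change (G14.getD i []).toFinset = A.toFinset
    rw [List.getD_eq_getElem _ _ hi, hiA]
  rw [e] at h
  exact h

end Pool.Agent.P8H53.TW
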